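import Pool.Agent.Helper75.Torus.Goals

/-!
# Packet TORUS-BUMP for `MP_beb0a8_an`
-/

namespace Pool.Agent.Helper86.Torus

open Pool.Agent.Helper75.Torus

theorem thm : G_BUMP := by
  let f : ContDiffBump (0 : E) := ⟨1, 2, by norm_num, by norm_num⟩
  exact ⟨f, f.contDiff, f.hasCompactSupport, f.integral_pos⟩

end Pool.Agent.Helper86.Torus
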